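import Pool.Agent.W734.TWB.Stms

set_option autoImplicit false

noncomputable section

namespace Pool.Agent.W891.TWB

open MeasureTheory Set Filter Metric
open Pool.Agent.W734.TWB

/-! ### basic facts on the regions -/

theorem meas_coord {N : ℕ} (i : Fin N) (a : Fin 3) : Measurable (fun x : Cfg N => x i a) := by
  have h1 : Measurable (fun x : Cfg N => x i) := measurable_pi_apply i
  exact ((EuclideanSpace.proj (𝕜 := ℝ) a).continuous.measurable).comp h1

theorem meas_reg {N : ℕ} (l : ℝ) (k : Fin N → (Fin 3 → ℤ)) : MeasurableSet (reg l k) := by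
  unfold reg
  have : {x : Cfg N | ∀ i a, x i a ∈ Set.Ico (l * (k i a : ℝ)) (l * (k i a : ℝ) + l)} =
      ⋂ i, ⋂ a, (fun x : Cfg N => x i a) ⁻¹' Set.Ico (l * (k i a : ℝ)) (l * (k i a : ℝ) + l) := by
    ext x
    simp
  rw [this]
  exact MeasurableSet.iInter fun i => MeasurableSet.iInter fun a =>
    meas_coord i a measurableSet_Ico

theorem reg_bdd {N : ℕ} (l : ℝ) (k : Fin N → (Fin 3 → ℤ)) :
    ∃ K : Set (Cfg N), IsCompact K ∧ reg l k ⊆ K := by
  refine ⟨Set.pi Set.univ (fun i => (WithLp.toLp 2) '' (Set.Icc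
    (fun a => l * (k i a : ℝ)) (fun a => l * (k i a : ℝ) + l))), ?_, ?_⟩
  · apply isCompact_univ_pi
    intro i
    exact isCompact_Icc.image (PiLp.continuous_toLp 2 _)
  · intro x hx i _
    refine ⟨WithLp.ofLp (x i), ⟨fun a => (hx i a).1, fun a => (hx i a).2.le⟩, rfl⟩

theorem intOn {N : ℕ} (l : ℝ) (k : Fin N → (Fin 3 → ℤ)) (g : Cfg N → ℝ) (hg : Measurable g)
    (hb : ∀ K : Set (Cfg N), IsCompact K → ∃ B : ℝ, ∀ x ∈ K, ‖g x‖ ≤ B) :
    IntegrableOn g (reg l k) := by
  obtain ⟨K, hK, hsub⟩ := reg_bdd l k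
  obtain ⟨B, hB⟩ := hb K hK
  refine Measure.integrableOn_of_bounded (M := B) ?_ hg.aestronglyMeasurable ?_
  · exact (lt_of_le_of_lt (measure_mono hsub) hK.measure_lt_top).ne
  · exact (ae_restrict_iff' (meas_reg l k)).2 (Filter.Eventually.of_forall fun x hx =>
      hB x (hsub hx))

/-- locally bounded measurable functions -/
def LB {N : ℕ} (g : Cfg N → ℝ) : Prop :=
  Measurable g ∧ ∀ K : Set (Cfg N), IsCompact K → ∃ B : ℝ, ∀ x ∈ K, ‖g x‖ ≤ B

theorem LB.of_cont {N : ℕ} {g : Cfg N → ℝ} (h : Continuous g) : LB g := by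
  refine ⟨h.measurable, fun K hK => ?_⟩
  exact hK.exists_bound_of_continuousOn h.continuousOn

theorem LB.add {N : ℕ} {f g : Cfg N → ℝ} (hf : LB f) (hg : LB g) : LB (fun x => f x + g x) := by
  refine ⟨hf.1.add hg.1, fun K hK => ?_⟩
  obtain ⟨B, hB⟩ := hf.2 K hK
  obtain ⟨C, hC⟩ := hg.2 K hK
  exact ⟨B + C, fun x hx => (norm_add_le _ _).trans (add_le_add (hB x hx) (hC x hx))⟩

theorem LB.mul {N : ℕ} {f g : Cfg N → ℝ} (hf : LB f) (hg : LB g) : LB (fun x => f x * g x) := by
  refine ⟨hf.1.mul hg.1, fun K hK => ?_⟩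
  obtain ⟨B, hB⟩ := hf.2 K hK
  obtain ⟨C, hC⟩ := hg.2 K hK
  refine ⟨B * C, fun x hx => ?_⟩
  rw [norm_mul]
  exact mul_le_mul (hB x hx) (hC x hx) (norm_nonneg _) ((norm_nonneg _).trans (hB x hx))

theorem LB.sum {N : ℕ} {ι : Type*} (s : Finset ι) {f : ι → Cfg N → ℝ} (hf : ∀ i ∈ s, LB (f i)) :
    LB (fun x => ∑ i ∈ s, f i x) := by
  classical
  induction s using Finset.induction_on with
  | empty => simpa using LB.of_cont (N := N) (g := fun _ => (0 : ℝ)) continuous_const
  | insert a s ha ih =>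
    have h1 : (fun x => ∑ i ∈ insert a s, f i x) = fun x => f a x + ∑ i ∈ s, f i x := by
      funext x
      rw [Finset.sum_insert ha]
    rw [h1]
    exact (hf a (Finset.mem_insert_self _ _)).add
      (ih fun i hi => hf i (Finset.mem_insert_of_mem hi))

theorem LB.comp_bdd {N : ℕ} {X : Type*} [MeasurableSpace X] {w : X → ℝ} (hw : Measurable w)
    (h0 : ∀ x, 0 ≤ w x) (hb : ∃ M : ℝ, ∀ x, w x ≤ M) {T : Cfg N → X} (hT : Measurable T) :
    LB (fun x => w (T x)) := by
  obtain ⟨M, hM⟩ := hb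
  refine ⟨hw.comp hT, fun K _ => ⟨M, fun x _ => ?_⟩⟩
  rw [Real.norm_eq_abs, abs_of_nonneg (h0 _)]
  exact hM _

theorem gsq_cont {N : ℕ} {F : Cfg N → ℂ} (hF : ContDiff ℝ 1 F) (i : Fin N) :
    Continuous (gsq F i) := by
  unfold gsq
  refine continuous_finsetSum _ fun k _ => ?_
  exact (((hF.continuous_fderiv (by norm_num)).clm_apply continuous_const).norm).pow 2

theorem wt_cont {N : ℕ} {φ : E3 → ℝ} (h : Continuous φ) : Continuous (wt (m := N) φ) := by
  unfold wt
  exact continuous_finsetProd _ fun i _ => (h.comp (continuous_apply i)).pow 2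

theorem wt_nonneg {N : ℕ} (φ : E3 → ℝ) (x : Cfg N) : 0 ≤ wt φ x :=
  Finset.prod_nonneg fun i _ => sq_nonneg _

theorem gsq_nonneg {N : ℕ} (F : Cfg N → ℂ) (i : Fin N) (x : Cfg N) : 0 ≤ gsq F i x :=
  Finset.sum_nonneg fun k _ => by positivity

/-- the energy density of the particles in `J` -/
def eJ {N : ℕ} (w : E3 → ℝ) (v : E3 × E3 → ℝ) (F : Cfg N → ℂ) (J : Finset (Fin N))
    (x : Cfg N) : ℝ := kinJ J F x + (pairJ J w x + tripJ J v x) * ‖F x‖ ^ 2

theorem pairJ_LB {N : ℕ} {w : E3 → ℝ} {v : E3 × E3 → ℝ} (h : PotOK w v) (J : Finset (Fin N)) :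
    LB (fun x : Cfg N => pairJ J w x) := by
  unfold pairJ
  refine LB.sum _ fun i _ => LB.sum _ fun j _ => ?_
  exact LB.comp_bdd h.mw h.nw h.bw ((measurable_pi_apply i).sub (measurable_pi_apply j))

theorem tripJ_LB {N : ℕ} {w : E3 → ℝ} {v : E3 × E3 → ℝ} (h : PotOK w v) (J : Finset (Fin N)) :
    LB (fun x : Cfg N => tripJ J v x) := by
  unfold tripJ
  refine LB.sum _ fun i _ => LB.sum _ fun j _ => LB.sum _ fun k _ => ?_
  exact LB.comp_bdd h.mv h.nv h.bv
    (((measurable_pi_apply i).sub (measurable_pi_apply j)).prodMk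
      ((measurable_pi_apply i).sub (measurable_pi_apply k)))

theorem eJ_LB {N : ℕ} {w : E3 → ℝ} {v : E3 × E3 → ℝ} (h : PotOK w v) {F : Cfg N → ℂ}
    (hF : ContDiff ℝ 1 F) (J : Finset (Fin N)) : LB (fun x => eJ w v F J x) := by
  unfold eJ
  refine LB.add ?_ (LB.mul (LB.add (pairJ_LB h J) (tripJ_LB h J)) ?_)
  · unfold kinJ
    exact LB.sum _ fun i _ => LB.of_cont (gsq_cont hF i)
  · exact LB.of_cont (hF.continuous.norm.pow 2)

/-! ### splitting of the coordinates -/

section split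

variable {N m : ℕ} (J : Finset (Fin N)) (hJ : J.card = m)

/-- the indices: the first ones are in `J`, in the increasing order -/
def ix : (Fin m ⊕ {i : Fin N // i ∉ J}) ≃ Fin N :=
  (Equiv.sumCongr (J.orderIsoOfFin hJ).toEquiv (Equiv.refl _)).trans (Equiv.sumCompl (· ∈ J))

theorem ix_inl (j : Fin m) : ix J hJ (Sum.inl j) = J.orderEmbOfFin hJ j := rfl

theorem ix_inr (i : {i : Fin N // i ∉ J}) : ix J hJ (Sum.inr i) = i.1 := rfl

/-- the configuration with given coordinates in `J` and outside -/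
def cmb (z : Cfg m) (y : {i : Fin N // i ∉ J} → E3) : Cfg N :=
  fun i => Sum.elim z y ((ix J hJ).symm i)

theorem cmb_inl (z : Cfg m) (y : {i : Fin N // i ∉ J} → E3) (j : Fin m) :
    cmb J hJ z y (J.orderEmbOfFin hJ j) = z j := by
  rw [← ix_inl J hJ j]
  unfold cmb
  rw [Equiv.symm_apply_apply]
  rfl

theorem cmb_inr (z : Cfg m) (y : {i : Fin N // i ∉ J} → E3) (i : {i : Fin N // i ∉ J}) :
    cmb J hJ z y i.1 = y i := by
  rw [← ix_inr J hJ i]
  unfold cmb
  rw [Equiv.symm_apply_apply]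
  rfl

/-- as a measurable equivalence -/
def cmbE : (Cfg m × ({i : Fin N // i ∉ J} → E3)) ≃ᵐ Cfg N :=
  (MeasurableEquiv.sumPiEquivProdPi (fun _ : Fin m ⊕ {i : Fin N // i ∉ J} => E3)).symm.trans
    (MeasurableEquiv.piCongrLeft (fun _ => E3) (ix J hJ))

theorem cmbE_mp : MeasurePreserving (cmbE J hJ) volume volume := by
  unfold cmbE
  exact (volume_measurePreserving_sumPiEquivProdPi_symm
    (fun _ : Fin m ⊕ {i : Fin N // i ∉ J} => E3)).trans
    (volume_measurePreserving_piCongrLeft (fun _ => E3) (ix J hJ))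

theorem cmbE_apply (z : Cfg m) (y : {i : Fin N // i ∉ J} → E3) :
    cmbE J hJ (z, y) = cmb J hJ z y := by
  funext i
  obtain ⟨s, rfl⟩ := (ix J hJ).surjective i
  have h1 : cmbE J hJ (z, y) (ix J hJ s) = (Sum.elim z y s : E3) := by
    unfold cmbE
    rw [MeasurableEquiv.trans_apply, MeasurableEquiv.coe_piCongrLeft,
      Equiv.piCongrLeft_apply_apply, MeasurableEquiv.coe_sumPiEquivProdPi_symm]
    cases s <;> rfl
  rw [h1]
  unfold cmb
  rw [Equiv.symm_apply_apply]

theorem fub (f : Cfg N → ℝ) (hf : Integrable f) :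
    ∫ x, f x = ∫ y : {i : Fin N // i ∉ J} → E3, ∫ z : Cfg m, f (cmb J hJ z y) := by
  have h1 : ∫ x, f x = ∫ p, f (cmbE J hJ p) :=
    ((cmbE_mp J hJ).integral_comp (cmbE J hJ).measurableEmbedding f).symm
  have h2 : Integrable (fun p => f (cmbE J hJ p))
      ((volume : Measure (Cfg m)).prod (volume : Measure ({i : Fin N // i ∉ J} → E3))) :=
    ((cmbE_mp J hJ).integrable_comp_emb (cmbE J hJ).measurableEmbedding).2 hf
  rw [h1]
  have h3 := integral_prod_symm _ h2
  have h4 : ∫ p, f (cmbE J hJ p) = ∫ p, f (cmbE J hJ p)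
    ∂((volume : Measure (Cfg m)).prod (volume : Measure ({i : Fin N // i ∉ J} → E3))) := rfl
  rw [h4, h3]
  simp only [cmbE_apply]

theorem fub_int (f : Cfg N → ℝ) (hf : Integrable f) :
    Integrable (fun y : {i : Fin N // i ∉ J} → E3 => ∫ z : Cfg m, f (cmb J hJ z y)) := by
  have h2 : Integrable (fun p => f (cmbE J hJ p))
      ((volume : Measure (Cfg m)).prod (volume : Measure ({i : Fin N // i ∉ J} → E3))) :=
    ((cmbE_mp J hJ).integrable_comp_emb (cmbE J hJ).measurableEmbedding).2 hf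
  have h3 := h2.integral_prod_right
  simp only [cmbE_apply] at h3
  exact h3

/-- the derivative of `cmb` -/
def cmbL : Cfg m →L[ℝ] Cfg N :=
  ContinuousLinearMap.pi fun i => Sum.elim
    (fun j => ContinuousLinearMap.proj (R := ℝ) (φ := fun _ : Fin m => E3) j)
    (fun _ => 0) ((ix J hJ).symm i)

theorem cmb_hasFDeriv (y : {i : Fin N // i ∉ J} → E3) (z : Cfg m) :
    HasFDerivAt (fun z => cmb J hJ z y) (cmbL J hJ) z := by
  rw [hasFDerivAt_pi']
  intro i
  have h1 : (ContinuousLinearMap.proj i).comp (cmbL J hJ) = (Sum.elim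
    (fun j => ContinuousLinearMap.proj (R := ℝ) (φ := fun _ : Fin m => E3) j)
    (fun _ => 0) ((ix J hJ).symm i) : Cfg m →L[ℝ] E3) := by
    ext h
    rfl
  rw [h1]
  unfold cmb
  rcases hs : (ix J hJ).symm i with j | j
  · simp only [Sum.elim_inl]
    exact (ContinuousLinearMap.proj (R := ℝ) (φ := fun _ : Fin m => E3) j).hasFDerivAt
  · simp only [Sum.elim_inr]
    exact hasFDerivAt_const _ _

theorem cmbL_single (j : Fin m) (v : E3) :
    cmbL J hJ (Pi.single j v) = Pi.single (J.orderEmbOfFin hJ j) v := by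
  funext i
  obtain ⟨s, rfl⟩ := (ix J hJ).surjective i
  have h1 : cmbL J hJ (Pi.single j v) (ix J hJ s) = (Sum.elim
    (fun j => ContinuousLinearMap.proj (R := ℝ) (φ := fun _ : Fin m => E3) j)
    (fun _ => 0) s : Cfg m →L[ℝ] E3) (Pi.single j v) := by
    have : cmbL J hJ (Pi.single j v) (ix J hJ s) = (Sum.elim
      (fun j => ContinuousLinearMap.proj (R := ℝ) (φ := fun _ : Fin m => E3) j)
      (fun _ => 0) ((ix J hJ).symm (ix J hJ s)) : Cfg m →L[ℝ] E3) (Pi.single j v) := rfl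
    rw [this, Equiv.symm_apply_apply]
  rw [h1, ← ix_inl J hJ j]
  rcases s with j' | i
  · simp only [Sum.elim_inl, ContinuousLinearMap.proj_apply]
    by_cases h : j' = j
    · subst h
      rw [Pi.single_eq_same, Pi.single_eq_same]
    · rw [Pi.single_eq_of_ne h, Pi.single_eq_of_ne]
      intro h2
      exact h (Sum.inl_injective ((ix J hJ).injective h2))
  · rw [Pi.single_eq_of_ne]
    · rfl
    · intro h2
      have := (ix J hJ).injective h2
      cases this

theorem cmb_contDiff (y : {i : Fin N // i ∉ J} → E3) : ContDiff ℝ 1 (fun z => cmb J hJ z y) := by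
  rw [contDiff_pi]
  intro i
  unfold cmb
  rcases hs : (ix J hJ).symm i with j | j
  · simp only [Sum.elim_inl]
    exact contDiff_apply ℝ E3 j
  · simp only [Sum.elim_inr]
    exact contDiff_const

theorem gsq_cmb {F : Cfg N → ℂ} (hF : ContDiff ℝ 1 F) (y : {i : Fin N // i ∉ J} → E3)
    (z : Cfg m) (j : Fin m) :
    gsq (fun z => F (cmb J hJ z y)) j z = gsq F (J.orderEmbOfFin hJ j) (cmb J hJ z y) := by
  unfold gsq
  refine Finset.sum_congr rfl fun k _ => ?_
  have h1 : HasFDerivAt (fun z => F (cmb J hJ z y))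
      ((fderiv ℝ F (cmb J hJ z y)).comp (cmbL J hJ)) z :=
    ((hF.differentiable (by norm_num)) _).hasFDerivAt.comp z (cmb_hasFDeriv J hJ y z)
  rw [h1.fderiv, ContinuousLinearMap.comp_apply, cmbL_single]

theorem map_J : (Finset.univ : Finset (Fin m)).map (J.orderEmbOfFin hJ).toEmbedding = J := by
  ext i
  simp only [Finset.mem_map, Finset.mem_univ, true_and]
  have := Finset.range_orderEmbOfFin J hJ
  constructor
  · rintro ⟨j, rfl⟩
    exact J.orderEmbOfFin_mem hJ j
  · intro hi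
    have h2 : i ∈ Set.range (J.orderEmbOfFin hJ) := by
      rw [this]
      exact hi
    exact h2

theorem sum_J {M : Type*} [AddCommMonoid M] (f : Fin N → M) :
    ∑ i ∈ J, f i = ∑ j : Fin m, f (J.orderEmbOfFin hJ j) := by
  conv_lhs => rw [← map_J J hJ]
  rw [Finset.sum_map]
  rfl

theorem sum_J_Ioi {M : Type*} [AddCommMonoid M] (f : Fin N → M) (i : Fin m) :
    ∑ j ∈ J.filter (fun j => J.orderEmbOfFin hJ i < j), f j =
      ∑ j ∈ Finset.Ioi i, f (J.orderEmbOfFin hJ j) := by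
  rw [Finset.sum_filter, sum_J J hJ (fun j => if J.orderEmbOfFin hJ i < j then f j else 0)]
  have h1 : ∀ j : Fin m, (J.orderEmbOfFin hJ i < J.orderEmbOfFin hJ j) ↔ i < j := fun j =>
    (J.orderEmbOfFin hJ).lt_iff_lt
  simp only [h1]
  rw [← Finset.sum_filter]
  refine Finset.sum_congr ?_ fun _ _ => rfl
  ext j
  simp

theorem kinJ_cmb {F : Cfg N → ℂ} (hF : ContDiff ℝ 1 F) (y : {i : Fin N // i ∉ J} → E3)
    (z : Cfg m) : kin (fun z => F (cmb J hJ z y)) z = kinJ J F (cmb J hJ z y) := by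
  unfold kin kinJ
  rw [sum_J J hJ (fun i => gsq F i (cmb J hJ z y))]
  exact Finset.sum_congr rfl fun j _ => gsq_cmb J hJ hF y z j

theorem pairJ_cmb (w : E3 → ℝ) (y : {i : Fin N // i ∉ J} → E3) (z : Cfg m) :
    pairS w z = pairJ J w (cmb J hJ z y) := by
  unfold pairS pairJ
  rw [sum_J J hJ]
  refine Finset.sum_congr rfl fun i _ => ?_
  rw [sum_J_Ioi J hJ]
  refine Finset.sum_congr rfl fun j _ => ?_
  rw [cmb_inl, cmb_inl]

theorem tripJ_cmb (v : E3 × E3 → ℝ) (y : {i : Fin N // i ∉ J} → E3) (z : Cfg m) :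
    tripS v z = tripJ J v (cmb J hJ z y) := by
  unfold tripS tripJ
  rw [sum_J J hJ]
  refine Finset.sum_congr rfl fun i _ => ?_
  rw [sum_J_Ioi J hJ]
  refine Finset.sum_congr rfl fun j _ => ?_
  rw [sum_J_Ioi J hJ]
  refine Finset.sum_congr rfl fun k _ => ?_
  rw [cmb_inl, cmb_inl, cmb_inl]

theorem wt_cmb (φ : E3 → ℝ) (y : {i : Fin N // i ∉ J} → E3) (z : Cfg m) :
    wt φ (cmb J hJ z y) = (∏ i, φ (y i) ^ 2) * wt φ z := by
  unfold wt
  rw [← (ix J hJ).prod_comp (fun i => φ (cmb J hJ z y i) ^ 2), Fintype.prod_sum_type, mul_comm]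
  congr 1
  · refine Finset.prod_congr rfl fun i _ => ?_
    rw [ix_inr, cmb_inr]
  · refine Finset.prod_congr rfl fun i _ => ?_
    rw [ix_inl, cmb_inl]

theorem mem_reg_cmb (l : ℝ) (k : Fin N → (Fin 3 → ℤ)) (α : Fin 3 → ℤ) (hk : ∀ i ∈ J, k i = α)
    (y : {i : Fin N // i ∉ J} → E3) (z : Cfg m) :
    cmb J hJ z y ∈ reg l k ↔ z ∈ box (corner l α) l m ∧
      ∀ (i : {i : Fin N // i ∉ J}) (a : Fin 3),
        y i a ∈ Set.Ico (l * (k i.1 a : ℝ)) (l * (k i.1 a : ℝ) + l) := by
  have hc : ∀ a, (corner l α) a = l * (α a : ℝ) := fun a => rfl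
  constructor
  · intro h
    refine ⟨fun j a => ?_, fun i a => ?_⟩
    · have h1 := h (J.orderEmbOfFin hJ j) a
      rw [cmb_inl, hk _ (J.orderEmbOfFin_mem hJ j)] at h1
      rw [hc]
      exact h1
    · have h1 := h i.1 a
      rw [cmb_inr] at h1
      exact h1
  · rintro ⟨h1, h2⟩ i a
    obtain ⟨s, rfl⟩ := (ix J hJ).surjective i
    rcases s with j | i
    · rw [ix_inl, cmb_inl, hk _ (J.orderEmbOfFin_mem hJ j)]
      have := h1 j a
      rw [hc] at this
      exact this
    · rw [ix_inr, cmb_inr]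
      exact h2 i a

end split

theorem merge : S_MERGE := by
  intro φ hφ hφ0 w v hwv l hl α m A hA N J hJ k hk F hF
  classical
  obtain ⟨f1, hf1⟩ : ∃ f1 : Cfg N → ℝ, f1 = fun x => wt φ x * ‖F x‖ ^ 2 := ⟨_, rfl⟩
  obtain ⟨f2, hf2⟩ : ∃ f2 : Cfg N → ℝ, f2 = fun x => wt φ x *
    (kinJ J F x + (pairJ J w x + tripJ J v x) * ‖F x‖ ^ 2) := ⟨_, rfl⟩
  have hb1 : LB f1 := by
    rw [hf1]
    exact (LB.of_cont (wt_cont hφ)).mul (LB.of_cont (hF.continuous.norm.pow 2))
  have hb2 : LB f2 := by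
    rw [hf2]
    exact (LB.of_cont (wt_cont hφ)).mul (eJ_LB hwv hF J)
  have hi1 : Integrable ((reg l k).indicator f1) :=
    (integrable_indicator_iff (meas_reg l k)).2 (intOn l k f1 hb1.1 hb1.2)
  have hi2 : Integrable ((reg l k).indicator f2) :=
    (integrable_indicator_iff (meas_reg l k)).2 (intOn l k f2 hb2.1 hb2.2)
  have e1 : ∫ x in reg l k, wt φ x * ‖F x‖ ^ 2 = ∫ x, (reg l k).indicator f1 x := by
    rw [integral_indicator (meas_reg l k), hf1]
  have e2 : ∫ x in reg l k, wt φ x * (kinJ J F x + (pairJ J w x + tripJ J v x) * ‖F x‖ ^ 2) =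
      ∫ x, (reg l k).indicator f2 x := by
    rw [integral_indicator (meas_reg l k), hf2]
  rw [e1, e2, fub J hJ _ hi1, fub J hJ _ hi2, ← integral_const_mul]
  refine integral_mono ((fub_int J hJ _ hi1).const_mul A) (fub_int J hJ _ hi2) fun y => ?_
  dsimp only
  have hmb : MeasurableSet (box (corner l α) l m) := by
    have : box (corner l α) l m = reg l (fun _ : Fin m => α) := by
      unfold box reg corner
      rfl
    rw [this]
    exact meas_reg _ _
  by_cases hy : ∀ (i : {i : Fin N // i ∉ J}) (a : Fin 3),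
      y i a ∈ Set.Ico (l * (k i.1 a : ℝ)) (l * (k i.1 a : ℝ) + l)
  · obtain ⟨q, hq⟩ : ∃ q : ℝ, q = ∏ i, φ (y i) ^ 2 := ⟨_, rfl⟩
    have hq0 : 0 ≤ q := by
      rw [hq]
      exact Finset.prod_nonneg fun i _ => sq_nonneg _
    have g1 : ∫ z : Cfg m, (reg l k).indicator f1 (cmb J hJ z y) =
        q * ∫ z in box (corner l α) l m, wt φ z * ‖F (cmb J hJ z y)‖ ^ 2 := by
      rw [← integral_const_mul, ← integral_indicator hmb]
      refine integral_congr_ae (Filter.Eventually.of_forall fun z => ?_)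
      simp only [Set.indicator]
      have hm := mem_reg_cmb J hJ l k α hk y z
      by_cases hz : z ∈ box (corner l α) l m
      · rw [if_pos (hm.2 ⟨hz, hy⟩), if_pos hz, hf1]
        simp only
        rw [wt_cmb, ← hq]
        ring
      · rw [if_neg (fun h => hz (hm.1 h).1), if_neg hz]
    have g2 : ∫ z : Cfg m, (reg l k).indicator f2 (cmb J hJ z y) =
        q * ∫ z in box (corner l α) l m, wt φ z * (kin (fun z => F (cmb J hJ z y)) z +
          (pairS w z + tripS v z) * ‖F (cmb J hJ z y)‖ ^ 2) := by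
      rw [← integral_const_mul, ← integral_indicator hmb]
      refine integral_congr_ae (Filter.Eventually.of_forall fun z => ?_)
      simp only [Set.indicator]
      have hm := mem_reg_cmb J hJ l k α hk y z
      by_cases hz : z ∈ box (corner l α) l m
      · rw [if_pos (hm.2 ⟨hz, hy⟩), if_pos hz, hf2]
        simp only
        rw [wt_cmb, ← hq, kinJ_cmb J hJ hF, pairJ_cmb J hJ w y z, tripJ_cmb J hJ v y z]
        ring
      · rw [if_neg (fun h => hz (hm.1 h).1), if_neg hz]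
    rw [g1, g2]
    have h3 := hA (fun z => F (cmb J hJ z y)) (hF.comp (cmb_contDiff J hJ y))
    have h4 := mul_le_mul_of_nonneg_left h3 hq0
    calc _ = q * (A * ∫ z in box (corner l α) l m, wt φ z * ‖F (cmb J hJ z y)‖ ^ 2) := by ring
      _ ≤ _ := h4
  · have h0 : ∀ z : Cfg m, cmb J hJ z y ∉ reg l k := fun z h =>
      hy ((mem_reg_cmb J hJ l k α hk y z).1 h).2
    have g1 : ∫ z : Cfg m, (reg l k).indicator f1 (cmb J hJ z y) = 0 := by
      have : (fun z : Cfg m => (reg l k).indicator f1 (cmb J hJ z y)) = fun _ => 0 := by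
        funext z
        exact Set.indicator_of_notMem (h0 z) _
      rw [this, integral_zero]
    have g2 : ∫ z : Cfg m, (reg l k).indicator f2 (cmb J hJ z y) = 0 := by
      have : (fun z : Cfg m => (reg l k).indicator f2 (cmb J hJ z y)) = fun _ => 0 := by
        funext z
        exact Set.indicator_of_notMem (h0 z) _
      rw [this, integral_zero]
    rw [g1, g2, mul_zero]

end Pool.Agent.W891.TWB
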