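import Pool.Agent.W891.TWB.Merge

set_option autoImplicit false

noncomputable section

namespace Pool.Agent.W891.TWB

open MeasureTheory Set Filter Metric
open Pool.Agent.W734.TWB

/-! ### superadditivity -/

theorem super_aux {ι : Type*} [DecidableEq ι] (g : Finset ι → ι → ℝ) (h0 : ∀ J i, 0 ≤ g J i)
    (hm : ∀ J J' i, J ⊆ J' → g J i ≤ g J' i) (J1 J2 J : Finset ι) (hd : Disjoint J1 J2)
    (h1 : J1 ⊆ J) (h2 : J2 ⊆ J) :
    (∑ i ∈ J1, g J1 i) + ∑ i ∈ J2, g J2 i ≤ ∑ i ∈ J, g J i := by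
  calc (∑ i ∈ J1, g J1 i) + ∑ i ∈ J2, g J2 i ≤ (∑ i ∈ J1, g J i) + ∑ i ∈ J2, g J i :=
      add_le_add (Finset.sum_le_sum fun i _ => hm _ _ i h1)
        (Finset.sum_le_sum fun i _ => hm _ _ i h2)
    _ = ∑ i ∈ J1 ∪ J2, g J i := (Finset.sum_union hd).symm
    _ ≤ ∑ i ∈ J, g J i := Finset.sum_le_sum_of_subset_of_nonneg
        (Finset.union_subset h1 h2) fun i _ _ => h0 J i

variable {N : ℕ}

theorem eJ_super {w : E3 → ℝ} {v : E3 × E3 → ℝ} (h : PotOK w v) (F : Cfg N → ℂ)
    (J1 J2 J : Finset (Fin N)) (hd : Disjoint J1 J2) (h1 : J1 ⊆ J) (h2 : J2 ⊆ J) (x : Cfg N) :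
    eJ w v F J1 x + eJ w v F J2 x ≤ eJ w v F J x := by
  have a1 : kinJ J1 F x + kinJ J2 F x ≤ kinJ J F x :=
    super_aux (fun _ i => gsq F i x) (fun _ i => gsq_nonneg F i x) (fun _ _ _ _ => le_rfl)
      J1 J2 J hd h1 h2
  have a2 : pairJ J1 w x + pairJ J2 w x ≤ pairJ J w x := by
    refine super_aux (fun J i => ∑ j ∈ J.filter (fun j => i < j), w (x i - x j))
      (fun J i => Finset.sum_nonneg fun j _ => h.nw _) ?_ J1 J2 J hd h1 h2
    intro K K' i hK
    exact Finset.sum_le_sum_of_subset_of_nonneg (Finset.filter_subset_filter _ hK)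
      fun j _ _ => h.nw _
  have a3 : tripJ J1 v x + tripJ J2 v x ≤ tripJ J v x := by
    refine super_aux (fun J i => ∑ j ∈ J.filter (fun j => i < j),
      ∑ k ∈ J.filter (fun k => j < k), v (x i - x j, x i - x k))
      (fun J i => Finset.sum_nonneg fun j _ => Finset.sum_nonneg fun k _ => h.nv _) ?_
      J1 J2 J hd h1 h2
    intro K K' i hK
    calc ∑ j ∈ K.filter (fun j => i < j),
          ∑ k ∈ K.filter (fun k => j < k), v (x i - x j, x i - x k) ≤
        ∑ j ∈ K.filter (fun j => i < j),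
          ∑ k ∈ K'.filter (fun k => j < k), v (x i - x j, x i - x k) :=
          Finset.sum_le_sum fun j _ => Finset.sum_le_sum_of_subset_of_nonneg
            (Finset.filter_subset_filter _ hK) fun j _ _ => h.nv _
      _ ≤ _ := Finset.sum_le_sum_of_subset_of_nonneg (Finset.filter_subset_filter _ hK)
            fun j _ _ => Finset.sum_nonneg fun k _ => h.nv _
  unfold eJ
  have a4 := mul_le_mul_of_nonneg_right (add_le_add a2 a3) (sq_nonneg ‖F x‖)
  nlinarith [a1, a4]

theorem eJ_nonneg {w : E3 → ℝ} {v : E3 × E3 → ℝ} (h : PotOK w v) (F : Cfg N → ℂ)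
    (J : Finset (Fin N)) (x : Cfg N) : 0 ≤ eJ w v F J x := by
  unfold eJ kinJ pairJ tripJ
  have b1 : 0 ≤ ∑ i ∈ J, gsq F i x := Finset.sum_nonneg fun i _ => gsq_nonneg F i x
  have b2 : 0 ≤ ∑ i ∈ J, ∑ j ∈ J.filter (fun j => i < j), w (x i - x j) :=
    Finset.sum_nonneg fun i _ => Finset.sum_nonneg fun j _ => h.nw _
  have b3 : 0 ≤ ∑ i ∈ J, ∑ j ∈ J.filter (fun j => i < j), ∑ k ∈ J.filter (fun k => j < k),
      v (x i - x j, x i - x k) :=
    Finset.sum_nonneg fun i _ => Finset.sum_nonneg fun j _ => Finset.sum_nonneg fun k _ => h.nv _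
  positivity

theorem eJ_univ (w : E3 → ℝ) (v : E3 × E3 → ℝ) (F : Cfg N → ℂ) (x : Cfg N) :
    eJ w v F Finset.univ x = kin F x + (pairS w x + tripS v x) * ‖F x‖ ^ 2 := by
  have h1 : ∀ i : Fin N, (Finset.univ.filter (fun j : Fin N => i < j)) = Finset.Ioi i := by
    intro i
    ext j
    simp
  unfold eJ kinJ pairJ tripJ kin pairS tripS
  simp only [h1]

/-- the energy of the particles in `J` -/
def EJ (φ : E3 → ℝ) (w : E3 → ℝ) (v : E3 × E3 → ℝ) (l : ℝ) (k : Fin N → (Fin 3 → ℤ))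
    (F : Cfg N → ℂ) (J : Finset (Fin N)) : ℝ :=
  ∫ x in reg l k, wt φ x * eJ w v F J x

section energy

variable {φ : E3 → ℝ} (hφ : Continuous φ) {w : E3 → ℝ} {v : E3 × E3 → ℝ} (hwv : PotOK w v)
  (l : ℝ) (k : Fin N → (Fin 3 → ℤ)) {F : Cfg N → ℂ} (hF : ContDiff ℝ 1 F)

include hφ hwv hF in
theorem EJ_int (J : Finset (Fin N)) :
    IntegrableOn (fun x => wt φ x * eJ w v F J x) (reg l k) := by
  have h := (LB.of_cont (wt_cont hφ)).mul (eJ_LB hwv hF J)
  exact intOn l k _ h.1 h.2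

include hwv in
theorem EJ_nonneg (J : Finset (Fin N)) : 0 ≤ EJ φ w v l k F J :=
  integral_nonneg fun x => mul_nonneg (wt_nonneg φ x) (eJ_nonneg hwv F J x)

include hφ hwv hF in
theorem EJ_super (J1 J2 J : Finset (Fin N)) (hd : Disjoint J1 J2) (h1 : J1 ⊆ J) (h2 : J2 ⊆ J) :
    EJ φ w v l k F J1 + EJ φ w v l k F J2 ≤ EJ φ w v l k F J := by
  unfold EJ
  rw [← integral_add (EJ_int hφ hwv l k hF J1) (EJ_int hφ hwv l k hF J2)]
  refine integral_mono ((EJ_int hφ hwv l k hF J1).add (EJ_int hφ hwv l k hF J2))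
    (EJ_int hφ hwv l k hF J) fun x => ?_
  dsimp only
  rw [← mul_add]
  exact mul_le_mul_of_nonneg_left (eJ_super hwv F J1 J2 J hd h1 h2 x) (wt_nonneg φ x)

end energy

theorem sumk (hM : S_MERGE) : S_SUMK := by
  intro φ hφ hφ0 w v hwv l hl p hp A 𝒜 hA0 hA N k F hF
  classical
  obtain ⟨I, hI⟩ : ∃ I : ℝ, I = ∫ x in reg l k, wt φ x * ‖F x‖ ^ 2 := ⟨_, rfl⟩
  have hE : ∫ x in reg l k, wt φ x * (kin F x + (pairS w x + tripS v x) * ‖F x‖ ^ 2) =
      EJ φ w v l k F Finset.univ := by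
    unfold EJ
    simp only [eJ_univ]
  rw [hE, ← hI]
  -- several blocks in one box
  have hblock : ∀ α ∈ 𝒜, ∀ (q : ℕ) (J : Finset (Fin N)), (∀ i ∈ J, k i = α) → q * p ≤ J.card →
      (q : ℝ) * A p * I ≤ EJ φ w v l k F J := by
    intro α hα q
    induction q with
    | zero =>
      intro J _ _
      rw [Nat.cast_zero, zero_mul, zero_mul]
      exact EJ_nonneg hwv l k J
    | succ q ih =>
      intro J hJ hcard
      obtain ⟨J1, hJ1, hc1⟩ := Finset.exists_subset_card_eq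
        (show p ≤ J.card by nlinarith [Nat.zero_le (q * p)])
      have hc2 : q * p ≤ (J \ J1).card := by
        rw [Finset.card_sdiff_of_subset hJ1, hc1]
        have : (q + 1) * p = q * p + p := by ring
        omega
      have h1 := ih (J \ J1) (fun i hi => hJ i (Finset.sdiff_subset hi)) hc2
      have h2 := hM φ hφ hφ0 w v hwv l hl α p (A p) (hA α hα p le_rfl) N J1 hc1 k
        (fun i hi => hJ i (hJ1 hi)) F hF
      rw [← hI] at h2
      have h3 := EJ_super hφ hwv l k hF J1 (J \ J1) J Finset.disjoint_sdiff hJ1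
        Finset.sdiff_subset
      have h4 : A p * I ≤ EJ φ w v l k F J1 := h2
      push_cast
      nlinarith [h1, h3, h4]
  -- one box
  have hbox : ∀ α ∈ 𝒜, HH A p (Finset.univ.filter (fun i => k i = α)).card * I ≤
      EJ φ w v l k F (Finset.univ.filter (fun i => k i = α)) := by
    intro α hα
    have hmem : ∀ i ∈ Finset.univ.filter (fun i => k i = α), k i = α := fun i hi =>
      (Finset.mem_filter.1 hi).2
    unfold HH
    split_ifs with hn
    · have h2 := hM φ hφ hφ0 w v hwv l hl α _ _ (hA α hα _ hn) N _ rfl k hmem F hF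
      rw [← hI] at h2
      exact h2
    · exact hblock α hα _ _ hmem (Nat.div_mul_le_self _ _)
  -- the sum
  have hsum : ∀ s : Finset (Fin 3 → ℤ),
      ∑ α ∈ s, EJ φ w v l k F (Finset.univ.filter (fun i => k i = α)) ≤
        EJ φ w v l k F (Finset.univ.filter (fun i => k i ∈ s)) := by
    intro s
    induction s using Finset.induction_on with
    | empty =>
      rw [Finset.sum_empty]
      exact EJ_nonneg hwv l k _
    | insert α s hα ih =>
      rw [Finset.sum_insert hα]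
      refine (add_le_add le_rfl ih).trans ?_
      apply EJ_super hφ hwv l k hF
      · rw [Finset.disjoint_left]
        intro i hi hi2
        rw [Finset.mem_filter] at hi hi2
        exact hα (hi.2 ▸ hi2.2)
      · intro i hi
        rw [Finset.mem_filter] at hi ⊢
        exact ⟨hi.1, Finset.mem_insert.2 (Or.inl hi.2)⟩
      · intro i hi
        rw [Finset.mem_filter] at hi ⊢
        exact ⟨hi.1, Finset.mem_insert.2 (Or.inr hi.2)⟩
  have hmono : EJ φ w v l k F (Finset.univ.filter (fun i => k i ∈ 𝒜)) ≤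
      EJ φ w v l k F Finset.univ := by
    have h1 := EJ_super hφ hwv l k hF (Finset.univ.filter (fun i => k i ∈ 𝒜)) ∅ Finset.univ
      (Finset.disjoint_empty_right _) (Finset.subset_univ _) (Finset.subset_univ _)
    have h2 := EJ_nonneg (φ := φ) hwv l k (F := F) (∅ : Finset (Fin N))
    linarith
  rw [Finset.sum_mul]
  exact (Finset.sum_le_sum hbox).trans ((hsum 𝒜).trans hmono)

end Pool.Agent.W891.TWB
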